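import Pool.Agent.Helper99.DF.St

set_option autoImplicit false

/-! Project DF (MP_d49380_lc), module A5: limits of the normalised iterates. -/

namespace Pool.Agent.Helper98.DF

open Pool.Agent.Helper99.DF
open Filter Topology

theorem hA5 (h1 : StGR) : StA5 := by
  intro S b al G hper hG hexp hcc hmono
  have hge : ∀ t, ∀ k ∈ S, 1 ≤ gg b al t k := by
    intro t k hk
    unfold gg
    have h := (hexp t k hk).1
    calc (1 : ℝ) = Real.exp (2 ^ t * al k) * Real.exp (-(2 ^ t * al k)) := by
          rw [← Real.exp_add, add_neg_cancel, Real.exp_zero]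
      _ ≤ (T^[t] b) k * Real.exp (-(2 ^ t * al k)) :=
          mul_le_mul_of_nonneg_right h (Real.exp_pos _).le
  have hlim : ∀ k ∈ S, Tendsto (fun t => gg b al t k) atTop (𝓝 (⨅ t, gg b al t k)) := by
    intro k hk
    refine tendsto_atTop_ciInf (antitone_nat_of_succ_le fun t => hmono t k hk) ?_
    refine ⟨1, ?_⟩
    rintro _ ⟨t, rfl⟩
    exact hge t k hk
  have hF1 : ∀ k ∈ S, 1 ≤ ⨅ t, gg b al t k := fun k hk => le_ciInf fun t => hge t k hk
  have hsq : ∀ x : ℝ, 1 ≤ x → x = x ^ 2 → x = 1 := by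
    intro x hx h
    nlinarith
  refine ⟨fun k => ⨅ t, gg b al t k, fun k hk => ⟨hF1 k hk, ?_, ?_, ?_⟩⟩
  · intro t
    refine ciInf_le ⟨1, ?_⟩ t
    rintro _ ⟨s, rfl⟩
    exact hge s k hk
  · intro hor
    have hsucc : Tendsto (fun t => gg b al (t + 1) k) atTop (𝓝 (⨅ t, gg b al t k)) :=
      (hlim k hk).comp (tendsto_add_atTop_nat 1)
    by_cases hact : k ∈ act S
    · have hc : 0 < cc al k := by
        rcases hor with h | h
        · exact absurd hact h
        · exact h
      have hnb := (Finset.mem_filter.1 hact).2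
      have hexp0 : Tendsto (fun t : ℕ => Real.exp (-(2 ^ t * cc al k))) atTop (𝓝 0) := by
        refine Real.tendsto_exp_atBot.comp (tendsto_neg_atTop_atBot.comp ?_)
        exact (tendsto_pow_atTop_atTop_of_one_lt (by norm_num : (1 : ℝ) < 2)).atTop_mul_const hc
      have h2 : Tendsto (fun t => gg b al t k ^ 2 -
          Real.exp (-(2 ^ t * cc al k)) * (gg b al t (k - 1) * gg b al t (k + 1))) atTop
          (𝓝 ((⨅ t, gg b al t k) ^ 2 - 0 * ((⨅ t, gg b al t (k - 1)) * (⨅ t, gg b al t (k + 1))))) :=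
        ((hlim k hk).pow 2).sub (hexp0.mul ((hlim _ hnb.1).mul (hlim _ hnb.2)))
      have h3 : (fun t => gg b al (t + 1) k) = fun t => gg b al t k ^ 2 -
          Real.exp (-(2 ^ t * cc al k)) * (gg b al t (k - 1) * gg b al t (k + 1)) :=
        funext fun t => (h1 S b al hper t k hk).1 hact
      rw [h3] at hsucc
      have h4 := tendsto_nhds_unique hsucc h2
      rw [zero_mul, sub_zero] at h4
      exact hsq _ (hF1 k hk) h4
    · have h3 : (fun t => gg b al (t + 1) k) = fun t => gg b al t k ^ 2 :=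
        funext fun t => (h1 S b al hper t k hk).2 hact
      rw [h3] at hsucc
      exact hsq _ (hF1 k hk) (tendsto_nhds_unique hsucc ((hlim k hk).pow 2))
  · intro hact hc
    have hsucc : Tendsto (fun t => gg b al (t + 1) k) atTop (𝓝 (⨅ t, gg b al t k)) :=
      (hlim k hk).comp (tendsto_add_atTop_nat 1)
    have hnb := (Finset.mem_filter.1 hact).2
    have h2 : Tendsto (fun t => gg b al t k ^ 2 - (gg b al t (k - 1) * gg b al t (k + 1))) atTop
        (𝓝 ((⨅ t, gg b al t k) ^ 2 - ((⨅ t, gg b al t (k - 1)) * (⨅ t, gg b al t (k + 1))))) :=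
      ((hlim k hk).pow 2).sub ((hlim _ hnb.1).mul (hlim _ hnb.2))
    have h3 : (fun t => gg b al (t + 1) k) = fun t => gg b al t k ^ 2 -
        (gg b al t (k - 1) * gg b al t (k + 1)) := by
      funext t
      rw [(h1 S b al hper t k hk).1 hact, hc, mul_zero, neg_zero, Real.exp_zero, one_mul]
    rw [h3] at hsucc
    exact (tendsto_nhds_unique hsucc h2).symm

end Pool.Agent.Helper98.DF
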